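import Pool.Agent.helper70.RK.Spec

/-!
# Row A2M of project rk (MP_e82547_al, owner helper70)
-/

set_option autoImplicit false

namespace RK

open QS (Lef EAb)
open LEQ (Stb Nz XS Ls Mb FS mem_FS)

theorem A2M_com {G : Type} [Group G] {K : Subgroup G} {y : G} :
    Com K y ↔ y ∈ Subgroup.centralizer (K : Set G) := by
  rw [Subgroup.mem_centralizer_iff]
  rfl

/-- coprime powers -/
theorem A2M_cop {G : Type} [Group G] (C : Subgroup G) (v : G) (a b : ℕ) (hab : Nat.Coprime a b)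
    (ha : v ^ a ∈ C) (hb : v ^ b ∈ C) : v ∈ C := by
  have h := Nat.gcd_eq_gcd_ab a b
  rw [hab] at h
  have h1 : v = (v ^ a) ^ (Nat.gcdA a b) * (v ^ b) ^ (Nat.gcdB a b) := by
    rw [← zpow_natCast v a, ← zpow_natCast v b, ← zpow_mul, ← zpow_mul, ← zpow_add, ← h]
    simp
  rw [h1]
  exact C.mul_mem (C.zpow_mem ha _) (C.zpow_mem hb _)

/-- the power relation -/
theorem A2M_pow {G : Type} [Group G] {K : Subgroup G} {v w : G} (hv : ∀ k ∈ K, v * k * v⁻¹ ∈ K)
    (hw : ∀ k ∈ K, w * k * w⁻¹ = v * k * v⁻¹) (i : ℕ) :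
    ∀ k ∈ K, v ^ i * k * (v ^ i)⁻¹ ∈ K ∧ w ^ i * k * (w ^ i)⁻¹ = v ^ i * k * (v ^ i)⁻¹ := by
  induction i with
  | zero =>
    intro k hk
    simp [hk]
  | succ i ih =>
    intro k hk
    obtain ⟨h1, h2⟩ := ih k hk
    have e1 : v ^ (i + 1) * k * (v ^ (i + 1))⁻¹ = v * (v ^ i * k * (v ^ i)⁻¹) * v⁻¹ := by
      rw [pow_succ' v i]
      group
    have e2 : w ^ (i + 1) * k * (w ^ (i + 1))⁻¹ = w * (w ^ i * k * (w ^ i)⁻¹) * w⁻¹ := by
      rw [pow_succ' w i]
      group
    refine ⟨?_, ?_⟩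
    · rw [e1]
      exact hv _ h1
    · rw [e1, e2, h2]
      exact hw _ h1

theorem A2M (hCVM : CVM_stmt) (hFCM : FCM_stmt) (hPRK : PRK_stmt) : A2M_stmt := by
  intro G _ _ p hp hO V M S hMV hF g hg I hI hI1 hI2 u hu1 hu2 x hxM hxp hxu
  obtain ⟨-, hf2, hf3⟩ := hFCM G V S hF
  -- members of `I`
  have hstep1 : ∀ K ∈ I, Com K x := by
    intro K hK
    obtain ⟨h1, h2⟩ := hPRK G V S hF g (fun K hK => ⟨(hg K hK).1, (hg K hK).2.1⟩) I hI u hu1 hu2 x hxu K hK
    have h3 := hI1 K hK x hxM h1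
    refine (hg K (hI K hK)).2.2 x h3 ?_ (h2 h3)
    rw [hxp]
    intro y _
    rw [mul_one, one_mul]
  -- all conjugates
  have hall : ∀ K' : Subgroup G, IsC S K' → Com K' x := by
    intro K' hK'
    obtain ⟨K, hK, m, hm, rfl⟩ := hI2 K' hK'
    have hcx := hstep1 K hK
    obtain ⟨-, -, hnorm, -, -, -⟩ := hf2 K (hI K hK)
    set w : G := m⁻¹ * x * m with hw
    set v : G := x⁻¹ * w with hv
    have hvV : v ∈ V := by
      have := hMV.co x⁻¹ (M.inv_mem hxM) m⁻¹ (M.inv_mem hm)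
      rw [inv_inv, inv_inv] at this
      have e : v = x⁻¹ * m⁻¹ * x * m := by
        rw [hv, hw]
        group
      rw [e]
      exact this
    have hvK : ∀ k ∈ K, v * k * v⁻¹ ∈ K := by
      intro k hk
      have h4 := hnorm v hvV
      rw [← h4, mem_Cj]
      have e : v⁻¹ * (v * k * v⁻¹) * v = k := by group
      rw [e]
      exact hk
    have hwk : ∀ k ∈ K, w * k * w⁻¹ = v * k * v⁻¹ := by
      intro k hk
      have e : w * k * w⁻¹ = x * (v * k * v⁻¹) * x⁻¹ := by
        rw [hv]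
        group
      rw [e]
      have h5 := hcx _ (hvK k hk)
      rw [← h5, mul_inv_cancel_right]
    have hwp : w ^ p = 1 := by
      have e : w ^ p = m⁻¹ * x ^ p * m := by
        have := conj_pow (i := p) (a := m⁻¹) (b := x)
        rw [inv_inv] at this
        exact this
      rw [e, hxp]
      group
    have hvp : v ^ p ∈ Subgroup.centralizer (K : Set G) := by
      rw [← A2M_com]
      intro k hk
      obtain ⟨-, h6⟩ := A2M_pow hvK hwk p k hk
      rw [hwp, one_mul, inv_one, mul_one] at h6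
      calc k * v ^ p = (v ^ p * k * (v ^ p)⁻¹) * v ^ p := by rw [← h6]
        _ = v ^ p * k := by group
    have hvc : v ^ (Nat.card V) ∈ Subgroup.centralizer (K : Set G) := by
      have h7 : v ^ (Nat.card V) = 1 := by
        have h8 : ((⟨v, hvV⟩ : V) ^ (Nat.card V) : V) = 1 := pow_card_eq_one'
        have h9 : (((⟨v, hvV⟩ : V) ^ (Nat.card V) : V) : G) = ((1 : V) : G) := by rw [h8]
        rw [Subgroup.coe_pow, Subgroup.coe_one] at h9
        exact h9
      rw [h7]
      exact Subgroup.one_mem _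
    have hcop : Nat.Coprime p (Nat.card V) := (Nat.Prime.coprime_iff_not_dvd hp).2 hMV.vp
    have hvC := A2M_cop _ v p (Nat.card V) hcop hvp hvc
    rw [← A2M_com] at hvC
    intro y hy
    rw [mem_Cj] at hy
    have h9 : (m⁻¹ * y * m) * w = w * (m⁻¹ * y * m) := by
      have e : w = x * v := by
        rw [hv]
        group
      have h10 := hcx _ hy
      have h11 := hvC _ hy
      calc (m⁻¹ * y * m) * w = ((m⁻¹ * y * m) * x) * v := by rw [e, mul_assoc (m⁻¹ * y * m) x v]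
        _ = (x * (m⁻¹ * y * m)) * v := by rw [h10]
        _ = x * ((m⁻¹ * y * m) * v) := mul_assoc _ _ _
        _ = x * (v * (m⁻¹ * y * m)) := by rw [h11]
        _ = (x * v) * (m⁻¹ * y * m) := (mul_assoc _ _ _).symm
        _ = w * (m⁻¹ * y * m) := by rw [← e]
    have h12 : m⁻¹ * (y * x) * m = m⁻¹ * (x * y) * m := by
      have e1 : (m⁻¹ * y * m) * w = m⁻¹ * (y * x) * m := by
        rw [hw]
        group
      have e2 : w * (m⁻¹ * y * m) = m⁻¹ * (x * y) * m := by
        rw [hw]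
        group
      rw [← e1, ← e2, h9]
    exact mul_left_cancel (mul_right_cancel h12)
  exact hCVM G p hp hO V M hMV x hxM hxp (hf3 x hall)

end RK
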