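import Pool.Agent.helper70.RK.Spec

/-!
# Row CNN of project rk (MP_e82547_al, owner helper70)
-/

set_option autoImplicit false

namespace RK

open QS (Lef EAb)
open LEQ (Stb Nz XS Ls Mb FS mem_FS)

/-- A graph with a weight of total sum `1`, whose components are permuted transitively. -/
theorem CNN_gen {V : Type} [Fintype V] (H : SimpleGraph V) (w : V → ℤ) (hsum : ∑ x, w x = 1)
    (htr : ∀ E F : V, ∃ φ : H ≃g H, (∀ x, w (φ x) = w x) ∧ H.Reachable (φ E) F) : H.Connected := by
  classical
  have : Finite H.ConnectedComponent := Quot.finite _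
  have : Fintype H.ConnectedComponent := Fintype.ofFinite _
  set e : H.ConnectedComponent → ℤ := fun K => ∑ x, if H.connectedComponentMk x = K then w x else 0 with he
  have hne : Nonempty V := by
    by_contra h
    rw [not_nonempty_iff] at h
    rw [Finset.univ_eq_empty, Finset.sum_empty] at hsum
    exact zero_ne_one hsum
  have heq : ∀ K K' : H.ConnectedComponent, e K' = e K := by
    intro K K'
    induction K using SimpleGraph.ConnectedComponent.ind with
    | _ E =>
      induction K' using SimpleGraph.ConnectedComponent.ind with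
      | _ F =>
        obtain ⟨φ, hw, hr⟩ := htr E F
        have h1 : e (H.connectedComponentMk F) =
            ∑ x, if H.connectedComponentMk (φ x) = H.connectedComponentMk F then w (φ x) else 0 :=
          (Equiv.sum_comp φ.toEquiv
            (fun x => if H.connectedComponentMk x = H.connectedComponentMk F then w x else 0)).symm
        rw [h1]
        refine Finset.sum_congr rfl (fun x _ => ?_)
        rw [hw x]
        have h2 : (H.connectedComponentMk (φ x) = H.connectedComponentMk F) ↔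
            (H.connectedComponentMk x = H.connectedComponentMk E) := by
          rw [SimpleGraph.ConnectedComponent.eq, SimpleGraph.ConnectedComponent.eq]
          constructor
          · intro h3
            exact SimpleGraph.Iso.reachable_iff.1 (h3.trans hr.symm)
          · intro h3
            exact (SimpleGraph.Iso.reachable_iff.2 h3).trans hr
        by_cases h4 : H.connectedComponentMk x = H.connectedComponentMk E
        · rw [if_pos h4, if_pos (h2.2 h4)]
        · rw [if_neg h4, if_neg (fun h5 => h4 (h2.1 h5))]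
  have htot : ∑ K, e K = 1 := by
    rw [he, Finset.sum_comm, ← hsum]
    refine Finset.sum_congr rfl (fun x _ => ?_)
    rw [Finset.sum_ite_eq]
    simp
  obtain ⟨x₀⟩ := hne
  have htot2 : (Fintype.card H.ConnectedComponent : ℤ) * e (H.connectedComponentMk x₀) = 1 := by
    rw [← htot, Finset.sum_congr rfl (fun K _ => heq (H.connectedComponentMk x₀) K)]
    simp
  have hcard : Fintype.card H.ConnectedComponent = 1 := by
    have h1 : (Fintype.card H.ConnectedComponent : ℤ) ∣ 1 := Dvd.intro _ htot2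
    have h2 := Int.natAbs_dvd_natAbs.2 h1
    simpa using h2
  have : Subsingleton H.ConnectedComponent := Fintype.card_le_one_iff_subsingleton.1 hcard.le
  have : Nonempty V := ⟨x₀⟩
  refine ⟨fun u v => ?_⟩
  exact SimpleGraph.ConnectedComponent.eq.1 (Subsingleton.elim _ _)

theorem CNN_cj_card {G : Type} [Group G] (g : G) (S : Subgroup G) : Nat.card (Cj g S) = Nat.card S :=
  Nat.card_congr (Subgroup.equivMapOfInjective S _ (MulAut.conj g).injective).toEquiv.symm

theorem CNN_cj_inv {G : Type} [Group G] (g : G) (S : Subgroup G) : Cj g⁻¹ (Cj g S) = S := by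
  ext x
  rw [mem_Cj, mem_Cj]
  have h : g⁻¹ * (g⁻¹⁻¹ * x * g⁻¹) * g = x := by group
  rw [h]

theorem CNN_cj_inv' {G : Type} [Group G] (g : G) (S : Subgroup G) : Cj g (Cj g⁻¹ S) = S := by
  ext x
  rw [mem_Cj, mem_Cj]
  have h : g⁻¹⁻¹ * (g⁻¹ * x * g) * g⁻¹ = x := by group
  rw [h]

theorem CNN_cj_mono {G : Type} [Group G] (g : G) {S T : Subgroup G} (h : S ≤ T) : Cj g S ≤ Cj g T := by
  intro x hx
  rw [mem_Cj] at hx ⊢
  exact h hx

theorem CNN_cj_lt {G : Type} [Group G] (g : G) {S T : Subgroup G} : Cj g S < Cj g T ↔ S < T := by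
  constructor
  · intro h
    refine lt_of_le_of_ne ?_ (fun h1 => ?_)
    · have := CNN_cj_mono g⁻¹ h.le
      rwa [CNN_cj_inv, CNN_cj_inv] at this
    · rw [h1] at h
      exact lt_irrefl _ h
  · intro h
    refine lt_of_le_of_ne (CNN_cj_mono g h.le) (fun h1 => ?_)
    have := congrArg (Cj g⁻¹) h1
    rw [CNN_cj_inv, CNN_cj_inv] at this
    exact h.ne this

theorem CNN_cj_bot {G : Type} [Group G] (g : G) {S : Subgroup G} (h : S ≠ ⊥) : Cj g S ≠ ⊥ := by
  intro h1
  apply h
  rw [Subgroup.eq_bot_iff_forall] at h1 ⊢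
  intro x hx
  have h2 := h1 (g * x * g⁻¹) (by
    rw [mem_Cj]
    have : g⁻¹ * (g * x * g⁻¹) * g = x := by group
    rw [this]
    exact hx)
  have h3 : x = g⁻¹ * (g * x * g⁻¹) * g := by group
  rw [h3, h2]
  group

theorem CNN_cj_eab {G : Type} [Group G] {p : ℕ} (g : G) {S : Subgroup G} (h : EAb p S) : EAb p (Cj g S) := by
  refine ⟨?_, ?_⟩
  · intro x hx y hy
    rw [mem_Cj] at hx hy
    have h1 := h.1 _ hx _ hy
    have h2 : g⁻¹ * (x * y) * g = g⁻¹ * (y * x) * g := by
      have e1 : g⁻¹ * x * g * (g⁻¹ * y * g) = g⁻¹ * (x * y) * g := by group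
      have e2 : g⁻¹ * y * g * (g⁻¹ * x * g) = g⁻¹ * (y * x) * g := by group
      rw [← e1, ← e2, h1]
    exact mul_left_cancel (mul_right_cancel h2)
  · intro x hx
    rw [mem_Cj] at hx
    have h1 := h.2 _ hx
    have h2 : (g⁻¹ * x * g) ^ p = g⁻¹ * x ^ p * g := by
      have := conj_pow (i := p) (a := g⁻¹) (b := x)
      rwa [inv_inv] at this
    rw [h2] at h1
    have h3 : x ^ p = g * (g⁻¹ * x ^ p * g) * g⁻¹ := by group
    rw [h3, h1]
    group

/-- conjugation of vertices -/
def CNN_conj {C : Type} [Group C] (p : ℕ) (g : C) : Gr p C ≃g Gr p C where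
  toFun E := ⟨Cj g E.1, CNN_cj_bot g E.2.1, CNN_cj_eab g E.2.2⟩
  invFun E := ⟨Cj g⁻¹ E.1, CNN_cj_bot g⁻¹ E.2.1, CNN_cj_eab g⁻¹ E.2.2⟩
  left_inv E := Subtype.ext (CNN_cj_inv g E.1)
  right_inv E := Subtype.ext (CNN_cj_inv' g E.1)
  map_rel_iff' := by
    intro E F
    show (Cj g E.1 < Cj g F.1 ∨ Cj g F.1 < Cj g E.1) ↔ (E.1 < F.1 ∨ F.1 < E.1)
    rw [CNN_cj_lt, CNN_cj_lt]

theorem CNN_count {C : Type} [Group C] [Finite C] (p k : ℕ) (hk : 1 < k) [Fintype (Ver p C)] :
    ((FS (fun E : Subgroup C => EAb p E ∧ Nat.card E = k)).card : ℤ) =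
      ∑ E : Ver p C, if Nat.card E.1 = k then (1 : ℤ) else 0 := by
  classical
  rw [Finset.sum_boole]
  congr 1
  symm
  refine Finset.card_bij (fun E _ => E.1) ?_ ?_ ?_
  · intro E hE
    rw [Finset.mem_filter] at hE
    rw [mem_FS]
    exact ⟨E.2.2, hE.2⟩
  · intro E _ F _ h
    exact Subtype.ext h
  · intro E hE
    rw [mem_FS] at hE
    refine ⟨⟨E, ?_, hE.1⟩, ?_, rfl⟩
    · rintro rfl
      have := hE.2
      rw [Subgroup.card_bot] at this
      omega
    · exact Finset.mem_filter.2 ⟨Finset.mem_univ _, hE.2⟩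

theorem CNN (hTRN : TRN_stmt) (hSBN : SBN_stmt) : CNN_stmt := by
  intro C _ _ p hp _ hn
  classical
  have hfin : Finite (Ver p C) := by
    unfold Ver
    infer_instance
  have hft : Fintype (Ver p C) := Fintype.ofFinite _
  have hp1 : 1 < p := hp.one_lt
  have hp2 : 1 < p ^ 2 := Nat.one_lt_pow (by norm_num) hp1
  rw [CNN_count p p hp1, CNN_count p (p ^ 2) hp2, Finset.mul_sum, ← Finset.sum_sub_distrib] at hn
  refine CNN_gen (Gr p C) _ hn ?_
  intro E F
  obtain ⟨g, E', hE', hr⟩ := hTRN C p hp E F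
  refine ⟨CNN_conj p g, ?_, ?_⟩
  · intro x
    have h : Nat.card ((CNN_conj p g) x).1 = Nat.card x.1 := CNN_cj_card g x.1
    simp only [h]
  · have h : (CNN_conj p g) E = E' := Subtype.ext hE'.symm
    rw [h]
    exact hr

end RK
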